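import Pool.Agent.H19.NagaiDefs

/-! # Nagai's indices of type II nilpotents in the Looijenga-Lunts-Verbitsky model -/

namespace Pool.Agent.Results.MP_06912d_ag.TypeTwo

open Pool.Agent.H19.Nagai

/-- Let `H` be the even cohomology of a hyperkähler manifold of dimension `2n`, as a module over
the LLV algebra with its Hodge decomposition, and let `N = x ∧ y` be of type II. If every class of
type `(p,q)` with `p < c` lies in the subalgebra generated by `H²` (for `c = 1` this is part of the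
model), then `i ≤ ν_{2i} ≤ max (i, min (2i - 2c, n - c))` for `1 ≤ i ≤ n`. In particular
`ν_{2i} = i` for `i ≤ 2c` and for `i ≥ n - c`, and for all `i` if `n ≤ 3c + 1`. -/
theorem result {V H : Type*} [AddCommGroup V] [Module ℂ V] [FiniteDimensional ℂ V]
    {B : LinearMap.BilinForm ℂ V} (hB : B.IsSymm)
    [AddCommGroup H] [Module ℂ H] [FiniteDimensional ℂ H]
    [LieRingModule (skewAdjointLieSubalgebra B) H] [LieModule ℂ (skewAdjointLieSubalgebra B) H]
    {n : ℕ} {α β σ τ : V} {one : H} (hX : IsLLVHodge hB H n α β σ τ one)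
    {x y : V} (hN : IsIsotropicPlane B α β x y)
    {c : ℕ} (hc : 1 ≤ c) (hver : ∀ p, 1 ≤ p → p < c → ∀ q ≤ 2 * n,
      hodgePiece hB H n α β σ τ p q ≤ verbitsky hB H α β one) :
    (∀ i, 1 ≤ i → i ≤ n → i ≤ nu hB H n α β (wedge hB x y) i ∧
      nu hB H n α β (wedge hB x y) i ≤ max i (min (2 * i - 2 * c) (n - c))) ∧
    (∀ i, 1 ≤ i → i ≤ n → i ≤ 2 * c ∨ n ≤ i + c → nu hB H n α β (wedge hB x y) i = i) ∧
    (n ≤ 3 * c + 1 → ∀ i, 1 ≤ i → i ≤ n → nu hB H n α β (wedge hB x y) i = i) := by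
  have X := model_of_llv hB hX
  have hver' : ∀ p, 1 ≤ p → p < c → ∀ q ≤ 2 * n,
      hp (fun u v => LieModule.toEnd ℂ (skewAdjointLieSubalgebra B) H (wedge hB u v)) n α β σ τ p q
        ≤ vsum B (fun u v => LieModule.toEnd ℂ (skewAdjointLieSubalgebra B) H (wedge hB u v))
          α β one := fun p h1 h2 q hq => (hver p h1 h2 q hq).trans (verbitsky_le hB α β one)
  have key : ∀ i, 1 ≤ i → i ≤ n → i ≤ nu hB H n α β (wedge hB x y) i ∧
      nu hB H n α β (wedge hB x y) i ≤ max i (min (2 * i - 2 * c) (n - c)) := by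
    intro i _ hi
    obtain ⟨a, ha, hai⟩ := X.lower hN.x_mem hN.y_mem hN.indep hN.xx hN.xy hN.yy hi
    have hub : ∀ m ∈ {m : ℕ | ∃ a : H, ⁅wedge hB α β, a⁆ = ((i : ℂ) - n) • a ∧
        (LieModule.toEnd ℂ (skewAdjointLieSubalgebra B) H (wedge hB x y) ^ m) a ≠ 0},
        m ≤ max i (min (2 * i - 2 * c) (n - c)) := by
      rintro m ⟨a, ha, hm⟩
      exact X.upper hver' hN.x_mem hN.y_mem hN.indep hN.xx hN.xy hN.yy hi ha hm
    exact ⟨le_csSup ⟨_, hub⟩ ⟨a, ha, hai⟩, csSup_le ⟨i, a, ha, hai⟩ hub⟩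
  refine ⟨key, fun i h1 h2 h3 => ?_, fun h0 i h1 h2 => ?_⟩
  · obtain ⟨h4, h5⟩ := key i h1 h2
    omega
  · obtain ⟨h4, h5⟩ := key i h1 h2
    omega

end Pool.Agent.Results.MP_06912d_ag.TypeTwo
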